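import Pool.Agent.Helper77.SUBK.SheetP
import Pool.Agent.Helper93.SUB.DSUP

/-!
Project SUBK, row DSUPM: the support of a derivative after a linear substitution, over any field.
-/

set_option autoImplicit false

namespace Pool.Agent.Helper93.SUBK

open Finset MvPolynomial
open Pool.Agent.Helper70.SUB Pool.Agent.Helper77.SUBK Pool.Agent.Helper93.SUB

theorem tay_C {σ R : Type} [CommRing R] (a : R) : tay (C a : MvPolynomial σ R) = C (C a) := by
  unfold tay
  rw [aeval_C]
  rfl

theorem tay_X {σ R : Type} [CommRing R] (s : σ) :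
    tay (X s : MvPolynomial σ R) = X s + C (X s) := by
  unfold tay
  rw [aeval_X]

theorem hd_toM (M : Type) [Field M] (σ : Type) (F : MvPolynomial σ ℤ) (J : σ →₀ ℕ) :
    (toM (hd J F) : MvPolynomial σ M) = hd J (toM F) := by
  unfold toM
  rw [hd_eq, hd_eq, ← MvPolynomial.coeff_map]
  congr 1
  induction F using MvPolynomial.induction_on with
  | C a =>
    rw [MvPolynomial.map_C, tay_C, tay_C, MvPolynomial.map_C, MvPolynomial.map_C]
  | add p q hp hq =>
    rw [map_add, map_add, hp, hq, map_add, map_add]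
  | mul_X p s hp =>
    rw [map_mul, map_mul, hp, map_mul, map_mul, MvPolynomial.map_X, tay_X, tay_X, map_add,
      MvPolynomial.map_X, MvPolynomial.map_C, MvPolynomial.map_X]

theorem DSUPM (hHD : ST_HD) : ST_DSUPM := by
  intro M _
  refine ⟨?_, ?_⟩
  · intro m n N P J0 J hdet hJ
    have hN : N * N⁻¹ = 1 := Matrix.mul_nonsing_inv N (isUnit_iff_ne_zero.2 hdet)
    rw [lsub_hd N N⁻¹ hN, MvPolynomial.coeff_sum] at hJ
    obtain ⟨d, -, hd1⟩ := Finset.exists_ne_zero_of_sum_ne_zero hJ
    rw [mul_comm, MvPolynomial.coeff_C_mul] at hd1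
    obtain ⟨h1, -⟩ := hHD (Fin m × Fin n) M
    rw [h1] at hd1
    have h2 := left_ne_zero_of_mul hd1
    have h3 := right_ne_zero_of_mul (right_ne_zero_of_mul hd1)
    refine ⟨d, fun h => ?_, h3⟩
    have h4 := prod_hom N⁻¹ d h2
    rw [← weight_wb, ← weight_wb, h4]
  · intro σ _ _ F J
    exact hd_toM M σ F J

end Pool.Agent.Helper93.SUBK
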