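import Pool.Agent.Helper77.SUBK.SheetP
import Pool.Agent.Helper93.SUB.Blk

/-!
Project SUBK, row LSBM: size and homogeneity under a linear substitution, for a submultiplicative
function.
-/

set_option autoImplicit false

namespace Pool.Agent.Helper93.SUBK

open Finset MvPolynomial
open Pool.Agent.Helper70.SUB Pool.Agent.Helper77.SUBK Pool.Agent.Helper93.SUB

section gen

variable {R : Type} [CommRing R] {σ : Type}

/-- the sum of the sizes of the coefficients -/
def ln (ν : R → ℝ) (P : MvPolynomial σ R) : ℝ := ∑ J ∈ P.support, ν (P.coeff J)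

theorem ln_nonneg {ν : R → ℝ} (h0 : ∀ x, 0 ≤ ν x) (P : MvPolynomial σ R) : 0 ≤ ln ν P :=
  Finset.sum_nonneg fun _ _ => h0 _

theorem ln_zero {ν : R → ℝ} : ln ν (0 : MvPolynomial σ R) = 0 := by
  simp [ln]

theorem ln_sub {ν : R → ℝ} (hz : ν 0 = 0) (P : MvPolynomial σ R) (s : Finset (σ →₀ ℕ))
    (hs : P.support ⊆ s) : ln ν P = ∑ J ∈ s, ν (P.coeff J) := by
  unfold ln
  refine Finset.sum_subset hs fun J _ hJ => ?_
  rw [MvPolynomial.notMem_support_iff.1 hJ, hz]

theorem ln_add {ν : R → ℝ} (hz : ν 0 = 0) (hadd : ∀ x y, ν (x + y) ≤ ν x + ν y)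
    (P Q : MvPolynomial σ R) : ln ν (P + Q) ≤ ln ν P + ln ν Q := by
  classical
  rw [ln_sub hz (P + Q) (P.support ∪ Q.support) MvPolynomial.support_add,
    ln_sub hz P (P.support ∪ Q.support) Finset.subset_union_left,
    ln_sub hz Q (P.support ∪ Q.support) Finset.subset_union_right, ← Finset.sum_add_distrib]
  refine Finset.sum_le_sum fun J _ => ?_
  rw [MvPolynomial.coeff_add]
  exact hadd _ _

theorem ln_sum {ι : Type} {ν : R → ℝ} (hz : ν 0 = 0) (hadd : ∀ x y, ν (x + y) ≤ ν x + ν y)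
    (s : Finset ι) (f : ι → MvPolynomial σ R) : ln ν (∑ i ∈ s, f i) ≤ ∑ i ∈ s, ln ν (f i) := by
  classical
  induction s using Finset.induction_on with
  | empty => simp [ln_zero]
  | insert a s ha ih =>
    rw [Finset.sum_insert ha, Finset.sum_insert ha]
    exact (ln_add hz hadd _ _).trans (by linarith)

theorem ln_monomial {ν : R → ℝ} (h0 : ∀ x, 0 ≤ ν x) (d : σ →₀ ℕ) (c : R) :
    ln ν (monomial d c) ≤ ν c := by
  classical
  unfold ln
  rw [MvPolynomial.support_monomial]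
  split_ifs with hc
  · rw [Finset.sum_empty]
    exact h0 _
  · rw [Finset.sum_singleton, MvPolynomial.coeff_monomial, if_pos rfl]

theorem ln_mul {ν : R → ℝ} (h0 : ∀ x, 0 ≤ ν x) (hz : ν 0 = 0)
    (hmul : ∀ x y, ν (x * y) ≤ ν x * ν y) (hadd : ∀ x y, ν (x + y) ≤ ν x + ν y)
    (P Q : MvPolynomial σ R) : ln ν (P * Q) ≤ ln ν P * ln ν Q := by
  classical
  have h1 : P * Q = ∑ d ∈ P.support, ∑ e ∈ Q.support, monomial (d + e) (P.coeff d * Q.coeff e) := by
    conv_lhs => rw [MvPolynomial.as_sum P, MvPolynomial.as_sum Q]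
    rw [Finset.sum_mul_sum]
    refine Finset.sum_congr rfl fun d _ => Finset.sum_congr rfl fun e _ => ?_
    rw [MvPolynomial.monomial_mul]
  rw [h1]
  refine (ln_sum hz hadd _ _).trans ?_
  have h2 : ln ν P * ln ν Q = ∑ d ∈ P.support, ∑ e ∈ Q.support, ν (P.coeff d) * ν (Q.coeff e) := by
    unfold ln
    rw [Finset.sum_mul_sum]
  rw [h2]
  refine Finset.sum_le_sum fun d _ => ?_
  refine (ln_sum hz hadd _ _).trans ?_
  refine Finset.sum_le_sum fun e _ => ?_
  exact (ln_monomial h0 _ _).trans (hmul _ _)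

theorem ln_C {ν : R → ℝ} (h0 : ∀ x, 0 ≤ ν x) (c : R) : ln ν (C c : MvPolynomial σ R) ≤ ν c := by
  rw [MvPolynomial.C_apply]
  exact ln_monomial h0 _ _

theorem ln_X {ν : R → ℝ} (h0 : ∀ x, 0 ≤ ν x) (h1 : ν 1 ≤ 1) (s : σ) :
    ln ν (X s : MvPolynomial σ R) ≤ 1 :=
  (ln_monomial h0 _ _).trans h1

theorem ln_pow {ν : R → ℝ} (h0 : ∀ x, 0 ≤ ν x) (hz : ν 0 = 0) (h1 : ν 1 ≤ 1)
    (hmul : ∀ x y, ν (x * y) ≤ ν x * ν y) (hadd : ∀ x y, ν (x + y) ≤ ν x + ν y)
    (f : MvPolynomial σ R) (k : ℕ) : ln ν (f ^ k) ≤ ln ν f ^ k := by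
  induction k with
  | zero =>
    rw [pow_zero, pow_zero, ← C_1]
    exact (ln_C h0 _).trans h1
  | succ k ih =>
    rw [pow_succ, pow_succ]
    exact (ln_mul h0 hz hmul hadd _ _).trans (mul_le_mul_of_nonneg_right ih (ln_nonneg h0 f))

theorem ln_prod {ι : Type} {ν : R → ℝ} (h0 : ∀ x, 0 ≤ ν x) (hz : ν 0 = 0) (h1 : ν 1 ≤ 1)
    (hmul : ∀ x y, ν (x * y) ≤ ν x * ν y) (hadd : ∀ x y, ν (x + y) ≤ ν x + ν y)
    (s : Finset ι) (f : ι → MvPolynomial σ R) : ln ν (∏ i ∈ s, f i) ≤ ∏ i ∈ s, ln ν (f i) := by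
  classical
  induction s using Finset.induction_on with
  | empty =>
    rw [Finset.prod_empty, Finset.prod_empty, ← C_1]
    exact (ln_C h0 _).trans h1
  | insert a s ha ih =>
    rw [Finset.prod_insert ha, Finset.prod_insert ha]
    exact (ln_mul h0 hz hmul hadd _ _).trans (mul_le_mul_of_nonneg_left ih (ln_nonneg h0 _))

/-- all coefficients are at most `b` -/
def Bd (ν : R → ℝ) (b : ℝ) (P : MvPolynomial σ R) : Prop := ∀ J, ν (P.coeff J) ≤ b

theorem ult_sum {ι : Type} {ν : R → ℝ} (hz : ν 0 = 0) (hult : ∀ x y, ν (x + y) ≤ max (ν x) (ν y))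
    (s : Finset ι) (f : ι → R) (b : ℝ) (hb : 0 ≤ b) (h : ∀ i ∈ s, ν (f i) ≤ b) :
    ν (∑ i ∈ s, f i) ≤ b := by
  classical
  induction s using Finset.induction_on with
  | empty => rw [Finset.sum_empty, hz]; exact hb
  | insert a s ha ih =>
    rw [Finset.sum_insert ha]
    exact (hult _ _).trans (max_le (h a (Finset.mem_insert_self a s))
      (ih fun i hi => h i (Finset.mem_insert_of_mem hi)))

theorem Bd.sum {ι : Type} {ν : R → ℝ} (hz : ν 0 = 0) (hult : ∀ x y, ν (x + y) ≤ max (ν x) (ν y))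
    (s : Finset ι) (f : ι → MvPolynomial σ R) (b : ℝ) (hb : 0 ≤ b) (h : ∀ i ∈ s, Bd ν b (f i)) :
    Bd ν b (∑ i ∈ s, f i) := by
  intro J
  rw [MvPolynomial.coeff_sum]
  exact ult_sum hz hult _ _ _ hb fun i hi => h i hi J

theorem Bd.mul {ν : R → ℝ} (h0 : ∀ x, 0 ≤ ν x) (hz : ν 0 = 0)
    (hmul : ∀ x y, ν (x * y) ≤ ν x * ν y) (hult : ∀ x y, ν (x + y) ≤ max (ν x) (ν y))
    {P Q : MvPolynomial σ R} {b c : ℝ} (hb : 0 ≤ b) (hc : 0 ≤ c) (hP : Bd ν b P)
    (hQ : Bd ν c Q) : Bd ν (b * c) (P * Q) := by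
  classical
  intro J
  rw [MvPolynomial.coeff_mul]
  refine ult_sum hz hult _ _ _ (mul_nonneg hb hc) fun x _ => ?_
  exact (hmul _ _).trans (mul_le_mul (hP _) (hQ _) (h0 _) hb)

theorem Bd.monomial {ν : R → ℝ} (hz : ν 0 = 0) {b : ℝ} (hb : 0 ≤ b) (d : σ →₀ ℕ) (c : R)
    (hc : ν c ≤ b) : Bd ν b (MvPolynomial.monomial d c) := by
  classical
  intro J
  rw [MvPolynomial.coeff_monomial]
  split_ifs
  · exact hc
  · rw [hz]; exact hb

theorem Bd.one {ν : R → ℝ} (hz : ν 0 = 0) (h1 : ν 1 ≤ 1) : Bd ν 1 (1 : MvPolynomial σ R) := by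
  rw [← C_1, MvPolynomial.C_apply]
  exact Bd.monomial hz zero_le_one _ _ h1

theorem Bd.pow {ν : R → ℝ} (h0 : ∀ x, 0 ≤ ν x) (hz : ν 0 = 0) (h1 : ν 1 ≤ 1)
    (hmul : ∀ x y, ν (x * y) ≤ ν x * ν y) (hult : ∀ x y, ν (x + y) ≤ max (ν x) (ν y))
    {P : MvPolynomial σ R} {b : ℝ} (hb : 0 ≤ b) (hP : Bd ν b P) (k : ℕ) :
    Bd ν (b ^ k) (P ^ k) := by
  induction k with
  | zero => rw [pow_zero, pow_zero]; exact Bd.one hz h1
  | succ k ih =>
    rw [pow_succ, pow_succ]
    exact Bd.mul h0 hz hmul hult (pow_nonneg hb k) hb ih hP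

theorem Bd.prod {ι : Type} {ν : R → ℝ} (h0 : ∀ x, 0 ≤ ν x) (hz : ν 0 = 0) (h1 : ν 1 ≤ 1)
    (hmul : ∀ x y, ν (x * y) ≤ ν x * ν y) (hult : ∀ x y, ν (x + y) ≤ max (ν x) (ν y))
    (s : Finset ι) (f : ι → MvPolynomial σ R) (b : ι → ℝ) (hb : ∀ i ∈ s, 0 ≤ b i)
    (h : ∀ i ∈ s, Bd ν (b i) (f i)) : Bd ν (∏ i ∈ s, b i) (∏ i ∈ s, f i) := by
  classical
  induction s using Finset.induction_on with
  | empty =>
    rw [Finset.prod_empty, Finset.prod_empty]
    exact Bd.one hz h1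
  | insert a s ha ih =>
    rw [Finset.prod_insert ha, Finset.prod_insert ha]
    refine Bd.mul h0 hz hmul hult (hb a (Finset.mem_insert_self a s)) ?_
      (h a (Finset.mem_insert_self a s)) (ih (fun i hi => hb i (Finset.mem_insert_of_mem hi))
        fun i hi => h i (Finset.mem_insert_of_mem hi))
    exact Finset.prod_nonneg fun i hi => hb i (Finset.mem_insert_of_mem hi)

end gen

theorem deg_sum {m n : ℕ} {R : Type} [CommSemiring R] (r : Fin m → ℕ)
    (P : MvPolynomial (Fin m × Fin n) R) (hP : MH r P) (d : Fin m × Fin n →₀ ℕ)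
    (hd : P.coeff d ≠ 0) (b : ℝ) : ∏ s : Fin m × Fin n, b ^ d s = b ^ (∑ h, r h) := by
  rw [Finset.prod_pow_eq_pow_sum, Fintype.sum_prod_type]
  congr 1
  exact Finset.sum_congr rfl fun h _ => hP d hd h

theorem coeff_toM {M : Type} [Field M] {σ : Type} (F : MvPolynomial σ ℤ) (J : σ →₀ ℕ) :
    (toM F : MvPolynomial σ M).coeff J = ((F.coeff J : ℤ) : M) := by
  unfold toM
  rw [MvPolynomial.coeff_map]
  rfl

theorem mh_toM {M : Type} [Field M] {m n : ℕ} (r : Fin m → ℕ)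
    (F : MvPolynomial (Fin m × Fin n) ℤ) (hF : MH r F) :
    MH r (toM F : MvPolynomial (Fin m × Fin n) M) := by
  intro J hJ h
  refine hF J ?_ h
  intro h0
  rw [coeff_toM, h0, Int.cast_zero] at hJ
  exact hJ rfl

theorem ln_toM {M : Type} [Field M] {σ : Type} (ν : M → ℝ) (hz : ν 0 = 0)
    (hint : ∀ z : ℤ, ν (z : M) ≤ |(z : ℝ)|) (F : MvPolynomial σ ℤ) :
    ln ν (toM F : MvPolynomial σ M) ≤ (l1 F : ℝ) := by
  have h1 : (toM F : MvPolynomial σ M).support ⊆ F.support := by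
    intro J hJ
    rw [MvPolynomial.mem_support_iff] at hJ ⊢
    intro h0
    rw [coeff_toM, h0, Int.cast_zero] at hJ
    exact hJ rfl
  rw [ln_sub hz _ _ h1]
  unfold l1
  push_cast
  refine Finset.sum_le_sum fun J _ => ?_
  rw [coeff_toM]
  exact hint _

theorem LSBM : ST_LSBM := by
  intro M _ _ ν h0 hz hint hmul hadd m n r F N a ha hN hF
  have hv1 : ν 1 ≤ 1 := by
    have := hint 1
    simpa using this
  have hG : MH r (toM F : MvPolynomial (Fin m × Fin n) M) := mh_toM r F hF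
  refine ⟨mh_lsub r N _ hG, ?_, ?_⟩
  · have hlf : ∀ s : Fin m × Fin n, ln ν (lf N s) ≤ n * a := by
      intro s
      unfold lf
      refine (ln_sum hz hadd _ _).trans ?_
      calc ∑ k, ln ν (C (N s.2 k) * X (s.1, k) : MvPolynomial (Fin m × Fin n) M)
          ≤ ∑ _k : Fin n, a := by
            refine Finset.sum_le_sum fun k _ => ?_
            refine (ln_mul h0 hz hmul hadd _ _).trans ?_
            calc ln ν (C (N s.2 k) : MvPolynomial (Fin m × Fin n) M) *
                  ln ν (X (s.1, k) : MvPolynomial (Fin m × Fin n) M)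
                ≤ a * 1 := by
                  refine mul_le_mul ((ln_C h0 _).trans (hN _ _)) (ln_X h0 hv1 _)
                    (ln_nonneg h0 _) ha
              _ = a := mul_one a
        _ = n * a := by
            rw [Finset.sum_const, Finset.card_univ, Fintype.card_fin, nsmul_eq_mul]
    change ln ν (lsub N (toM F)) ≤ _
    rw [lsub_eq]
    refine (ln_sum hz hadd _ _).trans ?_
    have h2 : ∀ d ∈ (toM F : MvPolynomial (Fin m × Fin n) M).support,
        ln ν (C ((toM F : MvPolynomial (Fin m × Fin n) M).coeff d) * ∏ s, lf N s ^ d s)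
        ≤ ν ((toM F : MvPolynomial (Fin m × Fin n) M).coeff d) * (n * a) ^ (∑ h, r h) := by
      intro d hd
      refine (ln_mul h0 hz hmul hadd _ _).trans ?_
      refine mul_le_mul (ln_C h0 _) ?_ (ln_nonneg h0 _) (h0 _)
      refine (ln_prod h0 hz hv1 hmul hadd _ _).trans ?_
      rw [← deg_sum r _ hG d (MvPolynomial.mem_support_iff.1 hd) (n * a)]
      refine Finset.prod_le_prod (fun s _ => ln_nonneg h0 _) fun s _ => ?_
      exact (ln_pow h0 hz hv1 hmul hadd _ _).trans (pow_le_pow_left₀ (ln_nonneg h0 _) (hlf s) _)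
    refine (Finset.sum_le_sum h2).trans ?_
    rw [← Finset.sum_mul, mul_comm]
    refine mul_le_mul_of_nonneg_left (ln_toM ν hz hint F) ?_
    exact pow_nonneg (mul_nonneg (Nat.cast_nonneg n) ha) _
  · intro hult hint1
    change Bd ν (a ^ (∑ h, r h)) (lsub N (toM F))
    rw [lsub_eq]
    have hpos : (0 : ℝ) ≤ a ^ (∑ h, r h) := pow_nonneg ha _
    refine Bd.sum hz hult _ _ _ hpos fun d hd => ?_
    have h3 : Bd ν (1 * ∏ s : Fin m × Fin n, a ^ d s)
        (C ((toM F : MvPolynomial (Fin m × Fin n) M).coeff d) * ∏ s, lf N s ^ d s) := by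
      refine Bd.mul h0 hz hmul hult zero_le_one (Finset.prod_nonneg fun s _ => pow_nonneg ha _)
        ?_ ?_
      · rw [MvPolynomial.C_apply]
        refine Bd.monomial hz zero_le_one _ _ ?_
        rw [coeff_toM]
        exact hint1 _
      · refine Bd.prod h0 hz hv1 hmul hult _ _ _ (fun s _ => pow_nonneg ha _) fun s _ => ?_
        refine Bd.pow h0 hz hv1 hmul hult ha ?_ _
        unfold lf
        refine Bd.sum hz hult _ _ _ ha fun k _ => ?_
        have h4 : (C (N s.2 k) * X (s.1, k) : MvPolynomial (Fin m × Fin n) M)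
            = MvPolynomial.monomial (Finsupp.single (s.1, k) 1) (N s.2 k) := by
          rw [← MvPolynomial.C_mul_X_eq_monomial]
        rw [h4]
        exact Bd.monomial hz ha _ _ (hN _ _)
    rw [one_mul, deg_sum r _ hG d (MvPolynomial.mem_support_iff.1 hd) a] at h3
    exact h3

end Pool.Agent.Helper93.SUBK
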